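import Pool.Graph.R_seed8.R660.CF.Tilde
import Pool.Agent.H16E.Extremal
import Pool.Agent.H16E.Strict2

/-!
# The entropy plateaus of slow `(a,b)`-continued fraction maps, in both variables

`InP a b` is `(a, b) ∈ 𝒫`, `ft e a b` is the map of `[-1, 1]` of the problem, `lapSet F` is the set
of the maximal intervals on which `F` is monotone, and `lapsI e a b n` is the number of the laps of
the `n`-th iterate.
-/

set_option autoImplicit false

namespace Pool.Agent.Results.MP_a78abf_an.PlateauAll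

open Filter Topology Set Pool.Agent.R660.CF Pool.Agent.R294.CF Pool.Agent.H16E

theorem exists_kappa : ∃ κ : ℝ, κ ^ 3 = κ ^ 2 + 1 ∧ 1 ≤ κ := by
  have hc : ContinuousOn (fun x : ℝ => x ^ 3 - x ^ 2 - 1) (Icc 1 2) := by fun_prop
  obtain ⟨κ, hκ1, hκ⟩ := intermediate_value_Icc (by norm_num : (1 : ℝ) ≤ 2) hc
    (show (0 : ℝ) ∈ Icc ((fun x : ℝ => x ^ 3 - x ^ 2 - 1) 1) ((fun x : ℝ => x ^ 3 - x ^ 2 - 1) 2) by
      norm_num)
  have hκ' : κ ^ 3 - κ ^ 2 - 1 = 0 := hκ
  exact ⟨κ, by linarith, hκ1.1⟩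

/-- For `0 < b ≤ 1/2` the entropy on `[-1/b, -⌊1/b⌋]` is smaller than at `-1`. -/
theorem section_lt {a b κ : ℝ} (hκ : κ ^ 3 = κ ^ 2 + 1) (hκ1 : 1 ≤ κ) (hb0 : 0 < b)
    (hb : b ≤ 1 / 2) (hP : InP a b) (ha : a ≤ -(⌊1 / b⌋₊ : ℝ)) :
    InP (-1) b ∧ ent a b < ent (-1) b := by
  have hinv : 2 ≤ 1 / b := by
    rw [le_div_iff₀ hb0]; linarith
  have hN2 : 2 ≤ ⌊1 / b⌋₊ := Nat.le_floor (by exact_mod_cast hinv)
  have hfl : (⌊1 / b⌋₊ : ℝ) ≤ 1 / b := Nat.floor_le (by positivity)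
  have hlt : 1 / b < (⌊1 / b⌋₊ : ℝ) + 1 := Nat.lt_floor_add_one _
  obtain ⟨M, hM⟩ : ∃ M, ⌊1 / b⌋₊ = M + 2 := ⟨⌊1 / b⌋₊ - 2, by omega⟩
  rw [hM] at hfl hlt ha
  push_cast at hfl hlt ha
  have hM0 : (0 : ℝ) ≤ M := by positivity
  have hM2 : (0 : ℝ) < (M : ℝ) + 2 := by positivity
  have hM3 : (0 : ℝ) < (M : ℝ) + 3 := by positivity
  have hQ : InP (-1) b := InP_neg_one hb0.le (by linarith)
  refine ⟨hQ, ?_⟩
  have h1 : ent a b ≤ ent (-((M : ℝ) + 2)) (1 / ((M : ℝ) + 2)) := by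
    refine left_mono (InP_M M) hP ha ?_ (by linarith) ?_
    · rw [le_div_iff₀ hM2]
      rw [le_div_iff₀ hb0] at hfl
      linarith
    · rw [div_le_one hM2]; linarith
  have h2 : ent (-1) (1 / ((M : ℝ) + 3)) ≤ ent (-1) b := by
    refine left_mono hQ (InP_one_M M) le_rfl ?_ (by norm_num) (by linarith)
    rw [div_le_iff₀ hM3]
    rw [div_lt_iff₀ hb0] at hlt
    linarith
  exact (h1.trans_lt (ent_strict M hκ hκ1)).trans_le h2

/-- There is a function `H` on the parameter set `𝒫` which gives the topological entropy: the number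
of laps of the `n`-th iterate is finite and `log (number of laps) / n → H a b` for every `(a, b)`
in `𝒫` (whichever of the two values `1`, `-1` is used for the middle branch at its jump `0`).  For
it: (1) for all `b` in `[0, 1/2]` and `a` in `[-1, -1/(b+1)]`, `H a b = H (-1) b`; (2) for *every*
`b ≥ 0` the function `a ↦ H a b` is constant on the set of the `a` in `[-1, -1/(b+1)]` with
`(a, b) ∈ 𝒫`; (3) for every `a ≤ 0` the function `b ↦ H a b` is constant on the set of the `b` in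
`[1/(1-a), 1]` with `(a, b) ∈ 𝒫`; (4) for every `b ≥ 1` the value on the plateau
`[-1/b, -1/(b+1)]` of (2), which is contained in `𝒫`, is the largest value of `a ↦ H a b`;
(5) for every `a ≤ -1` the value on the plateau `[1/(1-a), -1/a]` of (3) is the largest value of
`b ↦ H a b`;
(6) for `b` in `[1/2, 1]` the set of all `a` with `H a b = H (-1) b` is exactly `[-1, -1/2]`;
(7) for `a` in `[-1, -1/2]` the set of all `b` with `H a b = H a 1` is exactly `[1/2, 1]`;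
(8) for `0 < b ≤ 1/2` and `a ≤ -⌊1/b⌋`, `H a b < H (-1) b`, so the plateau does not reach the left
end of the section. -/
theorem result : ∃ H : ℝ → ℝ → ℝ,
    (∀ e a b : ℝ, (e = 1 ∨ e = -1) → InP a b →
      (∀ n : ℕ, (lapSet (ft e a b)^[n]).Finite) ∧
      Tendsto (fun n : ℕ => Real.log (lapsI e a b n) / n) atTop (𝓝 (H a b))) ∧
    (∀ a b : ℝ, 0 ≤ b → b ≤ 1 / 2 → -1 ≤ a → a ≤ -1 / (b + 1) →
      InP a b ∧ InP (-1) b ∧ H a b = H (-1) b) ∧
    (∀ a a' b : ℝ, InP a b → InP a' b → a ∈ Icc (-1) (-1 / (b + 1)) →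
      a' ∈ Icc (-1) (-1 / (b + 1)) → H a b = H a' b) ∧
    (∀ a b b' : ℝ, InP a b → InP a b' → b ∈ Icc (1 / (1 - a)) 1 →
      b' ∈ Icc (1 / (1 - a)) 1 → H a b = H a b') ∧
    (∀ a b : ℝ, 1 ≤ b → a ∈ Icc (-1 / b) (-1 / (b + 1)) →
      InP a b ∧ ∀ a' : ℝ, InP a' b → H a' b ≤ H a b) ∧
    (∀ a b : ℝ, a ≤ -1 → b ∈ Icc (1 / (1 - a)) (-1 / a) →
      InP a b ∧ ∀ b' : ℝ, InP a b' → H a b' ≤ H a b) ∧
    (∀ b : ℝ, 1 / 2 ≤ b → b ≤ 1 → {a : ℝ | InP a b ∧ H a b = H (-1) b} = Icc (-1) (-1 / 2)) ∧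
    (∀ a : ℝ, -1 ≤ a → a ≤ -1 / 2 → {b : ℝ | InP a b ∧ H a b = H a 1} = Icc (1 / 2) 1) ∧
    (∀ a b : ℝ, 0 < b → b ≤ 1 / 2 → InP a b → a ≤ -(⌊1 / b⌋₊ : ℝ) →
      InP (-1) b ∧ H a b < H (-1) b) := by
  have key : ∀ a a' b : ℝ, InP a b → InP a' b → a ∈ Icc (-1) (-1 / (b + 1)) →
      a' ∈ Icc (-1) (-1 / (b + 1)) → ent a b = ent a' b := by
    intro a a' b hab hab' h h'
    rw [add_comm b 1] at h h'
    exact plateau_all hab hab' h.1 h.2 h'.1 h'.2
  have large : ∀ a b : ℝ, 1 ≤ b → a ∈ Icc (-1 / b) (-1 / (b + 1)) →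
      InP a b ∧ ∀ a' : ℝ, InP a' b → ent a' b ≤ ent a b := by
    intro a b hb ha
    have hb0 : 0 < b := by linarith
    have hb1 : 0 < b + 1 := by linarith
    have e1 : -1 ≤ -1 / b := by
      rw [le_div_iff₀ hb0]; linarith
    have e2 : -1 / (b + 1) < 0 := div_neg_of_neg_of_pos (by norm_num) hb1
    have e3 : -1 ≤ a * b := by
      have := ha.1
      rwa [div_le_iff₀ hb0] at this
    have e4 : a * (b + 1) ≤ -1 := by
      have := ha.2
      rwa [le_div_iff₀ hb1] at this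
    have e5 := ha.2
    have e6 := ha.1
    have hP : InP a b := ⟨by linarith, by linarith, by nlinarith, by linarith⟩
    refine ⟨hP, fun a' ha' => ?_⟩
    have k1 : -1 ≤ a' * b := by linarith [ha'.2.2.2]
    have k2 : -1 / b ≤ a' := by rwa [div_le_iff₀ hb0]
    rcases le_total a a' with h | h
    · exact right_anti ha' hP h le_rfl (by linarith) (by linarith)
    · exact (key a' a b ha' hP ⟨by linarith, by linarith⟩ ⟨by linarith, e5⟩).le
  refine ⟨ent, ?_, ?_, key, ?_, large, ?_, ?_, ?_, ?_⟩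
  · intro e a b _ hab
    refine ⟨fun n => (lapSet_spec hab e n).1, ?_⟩
    rw [entropy_lapsI hab]
    exact ent_spec hab
  · intro a b hb hb2 ha1 ha2
    obtain ⟨hab, h⟩ := plateau_entropy hb hb2 ha1 ha2
    have hab' : InP (-1) b := ⟨by norm_num, hb, by linarith, by linarith⟩
    exact ⟨hab, hab', h _ _ (ent_spec hab) (ent_spec hab')⟩
  · intro a b b' hab hab' h h'
    rw [← ent_symm hab, ← ent_symm hab']
    have e : -1 / (-a + 1) = -(1 / (1 - a)) := by
      rw [show -a + 1 = 1 - a by ring, neg_div]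
    refine key _ _ _ (InP_symm hab) (InP_symm hab') ?_ ?_
    · rw [e]
      exact ⟨by linarith [h.2], by linarith [h.1]⟩
    · rw [e]
      exact ⟨by linarith [h'.2], by linarith [h'.1]⟩
  · intro a b ha hb
    have ha0 : a < 0 := by linarith
    have e : -1 / (-a + 1) = -(1 / (1 - a)) := by
      rw [show -a + 1 = 1 - a by ring, neg_div]
    have e2 : -1 / (-a) = -(-1 / a) := by
      rw [div_neg]
    obtain ⟨h1, h2⟩ := large (-b) (-a) (by linarith) ⟨by rw [e2]; linarith [hb.2], by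
      rw [e]; linarith [hb.1]⟩
    have hP : InP a b := by simpa using InP_symm h1
    refine ⟨hP, fun b' hb' => ?_⟩
    have := h2 (-b') (InP_symm hb')
    rwa [ent_symm hP, ent_symm hb'] at this
  · intro b hb hb1
    rw [ent_square le_rfl (by norm_num) hb hb1]
    ext a
    constructor
    · rintro ⟨hP, h⟩
      exact ((ent_eq_max_iff hP).1 h).1
    · intro h
      exact ⟨InP_square h.1 h.2 hb hb1, ent_square h.1 h.2 hb hb1⟩
  · intro a ha ha1
    rw [ent_square ha ha1 (by norm_num) le_rfl]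
    ext b
    constructor
    · rintro ⟨hP, h⟩
      exact ((ent_eq_max_iff hP).1 h).2
    · intro h
      exact ⟨InP_square ha ha1 h.1 h.2, ent_square ha ha1 h.1 h.2⟩
  · intro a b hb0 hb hP ha
    obtain ⟨κ, hκ3, hκ1⟩ := exists_kappa
    exact section_lt hκ3 hκ1 hb0 hb hP ha

end Pool.Agent.Results.MP_a78abf_an.PlateauAll
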